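import Pool.Agent.Y6.G.Stm

/-!
# Project EP: triads of modes without rotation (S_ARI1)
-/

set_option autoImplicit false

namespace Pool.Agent.Y932.EP.Ari1

open Pool.Agent.Y6.G
open Pool.Agent.Y6.M (Z3 Md)

theorem sq2 {x y : ℤ} (h : x ^ 2 + y ^ 2 = 0) : x = 0 ∧ y = 0 := by
  have hx := sq_nonneg x
  have hy := sq_nonneg y
  have h1 : x ^ 2 = 0 := by linarith
  have h2 : y ^ 2 = 0 := by linarith
  exact ⟨pow_eq_zero_iff (two_ne_zero) |>.1 h1, pow_eq_zero_iff (two_ne_zero) |>.1 h2⟩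

theorem ax {k : Z3} (h : EZ true k = 0) :
    (k 0 = 0 ∧ k 1 = 0) ∨ (k 1 = 0 ∧ k 2 = 0) ∨ (k 2 = 0 ∧ k 0 = 0) := by
  unfold EZ at h
  rw [if_pos rfl] at h
  rcases mul_eq_zero.1 h with h | h
  · rcases mul_eq_zero.1 h with h | h
    · exact Or.inl (sq2 h)
    · exact Or.inr (Or.inl (sq2 h))
  · exact Or.inr (Or.inr (sq2 h))

theorem cu {k : Z3} (h : EZ false k = 0) :
    (k 1 = k 0 ^ 61 ∧ k 2 = 0) ∨ (k 2 = k 1 ^ 61 ∧ k 0 = 0) ∨ (k 0 = k 2 ^ 61 ∧ k 1 = 0) := by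
  unfold EZ at h
  rw [if_neg (by decide)] at h
  rcases mul_eq_zero.1 h with h | h
  · rcases mul_eq_zero.1 h with h | h
    · exact Or.inl ⟨sub_eq_zero.1 (sq2 h).1, (sq2 h).2⟩
    · exact Or.inr (Or.inl ⟨sub_eq_zero.1 (sq2 h).1, (sq2 h).2⟩)
  · exact Or.inr (Or.inr ⟨sub_eq_zero.1 (sq2 h).1, (sq2 h).2⟩)

theorem ext3 (f g : Z3) : f = g ↔ f 0 = g 0 ∧ f 1 = g 1 ∧ f 2 = g 2 := by
  constructor
  · rintro rfl; exact ⟨rfl, rfl, rfl⟩
  · rintro ⟨h0, h1, h2⟩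
    ext j
    fin_cases j
    · exact h0
    · exact h1
    · exact h2

theorem ne0 {k : Z3} (h : k ≠ 0) : k 0 ≠ 0 ∨ k 1 ≠ 0 ∨ k 2 ≠ 0 := by
  by_contra hcon
  push Not at hcon
  exact h ((ext3 _ _).2 hcon)

/-- the properties of the power -/
structure Pw (p : ℤ → ℤ) : Prop where
  pos : ∀ x, 0 < x → x ≤ p x
  neg : ∀ x, x < 0 → p x ≤ x
  zero : p 0 = 0
  add : ∀ x y, x + y = 0 ↔ p x + p y = 0
  inj : ∀ x y, x = y ↔ p x = p y
  sup : ∀ x y, 0 < x → 0 < y → p x + p y < p (x + y)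

theorem pw61 : Pw (fun x => x ^ 61) := by
  have hodd : Odd 61 := by decide
  have hneg : ∀ x : ℤ, (-x) ^ 61 = -x ^ 61 := fun x => hodd.neg_pow x
  have hinj : Function.Injective (fun x : ℤ => x ^ 61) := hodd.strictMono_pow.injective
  refine ⟨fun x hx => ?_, fun x hx => ?_, ?_, fun x y => ?_, fun x y => ?_, fun x y hx hy => ?_⟩
  · exact le_self_pow₀ (by omega) (by norm_num)
  · have h1 : -x ≤ (-x) ^ 61 := le_self_pow₀ (by omega) (by norm_num)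
    rw [hneg] at h1
    show x ^ 61 ≤ x
    linarith
  · exact zero_pow (by norm_num)
  · show x + y = 0 ↔ x ^ 61 + y ^ 61 = 0
    constructor
    · intro h
      have : y = -x := by omega
      rw [this, hneg, add_neg_cancel]
    · intro h
      have h1 : y ^ 61 = (-x) ^ 61 := by rw [hneg]; linarith
      have h2 := hinj h1
      omega
  · exact ⟨fun h => by rw [h], fun h => hinj h⟩
  · show x ^ 61 + y ^ 61 < (x + y) ^ 61
    have h1 : x ^ 60 < (x + y) ^ 60 := pow_lt_pow_left₀ (by omega) hx.le (by norm_num)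
    have h2 : y ^ 60 < (x + y) ^ 60 := pow_lt_pow_left₀ (by omega) hy.le (by norm_num)
    have e1 : x ^ 61 = x * x ^ 60 := pow_succ' x 60
    have e2 : y ^ 61 = y * y ^ 60 := pow_succ' y 60
    have e3 : (x + y) ^ 61 = x * (x + y) ^ 60 + y * (x + y) ^ 60 := by
      rw [pow_succ' (x + y) 60, add_mul]
    rw [e1, e2, e3]
    exact add_lt_add (mul_lt_mul_of_pos_left h1 hx) (mul_lt_mul_of_pos_left h2 hy)

theorem fermat {p : ℤ → ℤ} (h : Pw p) (x y z : ℤ) (hz : z = x + y) (hp : p z = p x + p y) :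
    x = 0 ∨ y = 0 ∨ z = 0 := by
  by_contra hcon
  push Not at hcon
  obtain ⟨hx, hy, hz0⟩ := hcon
  have hn : ∀ u : ℤ, p (-u) = -p u := fun u => by
    have := (h.add u (-u)).1 (by omega)
    omega
  rcases lt_or_gt_of_ne hx with h1 | h1 <;> rcases lt_or_gt_of_ne hy with h2 | h2
  · have h3 := h.sup (-x) (-y) (by omega) (by omega)
    have e : -x + -y = -z := by omega
    rw [e, hn, hn, hn] at h3
    omega
  · rcases lt_or_gt_of_ne hz0 with h3 | h3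
    · -- x = z - y
      have h4 := h.sup (-z) y (by omega) h2
      have e : -z + y = -x := by omega
      rw [e, hn, hn] at h4
      omega
    · have h4 := h.sup z (-x) h3 (by omega)
      have e : z + -x = y := by omega
      rw [e, hn] at h4
      omega
  · rcases lt_or_gt_of_ne hz0 with h3 | h3
    · have h4 := h.sup (-z) x (by omega) h1
      have e : -z + x = -y := by omega
      rw [e, hn, hn] at h4
      omega
    · have h4 := h.sup z (-y) h3 (by omega)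
      have e : z + -y = x := by omega
      rw [e, hn] at h4
      omega
  · have h3 := h.sup x y h1 h2
    rw [← hz] at h3
    omega

/-- a nonzero vector on an axis -/
def Axs (k : Z3) (u : ℤ) : Prop := u ≠ 0 ∧ ((k 0 = u ∧ k 1 = 0 ∧ k 2 = 0) ∨
  (k 1 = u ∧ k 2 = 0 ∧ k 0 = 0) ∨ (k 2 = u ∧ k 0 = 0 ∧ k 1 = 0))

/-- a nonzero vector on a curve -/
def Crv (p : ℤ → ℤ) (k : Z3) (u : ℤ) : Prop := ((0 < u ∧ u ≤ p u) ∨ (u < 0 ∧ p u ≤ u)) ∧
  ((k 0 = u ∧ k 1 = p u ∧ k 2 = 0) ∨ (k 1 = u ∧ k 2 = p u ∧ k 0 = 0) ∨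
    (k 2 = u ∧ k 0 = p u ∧ k 1 = 0))

theorem axs {k : Z3} (hk : k ≠ 0) (h : EZ true k = 0) : ∃ u, Axs k u := by
  have h0 := ne0 hk
  rcases ax h with h | h | h
  · exact ⟨k 2, by unfold Axs; omega⟩
  · exact ⟨k 0, by unfold Axs; omega⟩
  · exact ⟨k 1, by unfold Axs; omega⟩

theorem crv {p : ℤ → ℤ} (hp : ∀ x, x ^ 61 = p x) (hP : Pw p) {k : Z3} (hk : k ≠ 0)
    (h : EZ false k = 0) : ∃ u, Crv p k u := by
  have h0 := ne0 hk
  have key : ∀ u : ℤ, u ≠ 0 → ((0 < u ∧ u ≤ p u) ∨ (u < 0 ∧ p u ≤ u)) := by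
    intro u hu
    rcases lt_or_gt_of_ne hu with h1 | h1
    · exact Or.inr ⟨h1, hP.neg u h1⟩
    · exact Or.inl ⟨h1, hP.pos u h1⟩
  rcases cu h with ⟨h1, h2⟩ | ⟨h1, h2⟩ | ⟨h1, h2⟩ <;> rw [hp] at h1
  · have hu : k 0 ≠ 0 := by
      intro hz
      rw [hz, hP.zero] at h1
      omega
    exact ⟨k 0, key _ hu, Or.inl ⟨rfl, h1, h2⟩⟩
  · have hu : k 1 ≠ 0 := by
      intro hz
      rw [hz, hP.zero] at h1
      omega
    exact ⟨k 1, key _ hu, Or.inr (Or.inl ⟨rfl, h1, h2⟩)⟩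
  · have hu : k 2 ≠ 0 := by
      intro hz
      rw [hz, hP.zero] at h1
      omega
    exact ⟨k 2, key _ hu, Or.inr (Or.inr ⟨rfl, h1, h2⟩)⟩

/-- no three vectors on the curves -/
theorem ccc {p : ℤ → ℤ} (hP : Pw p) {a b i : Z3} {u v w : ℤ} (ha : Crv p a u) (hb : Crv p b v)
    (hi : Crv p i w) (e0 : a 0 + b 0 = i 0) (e1 : a 1 + b 1 = i 1) (e2 : a 2 + b 2 = i 2) : False := by
  have f := fermat hP u v w
  obtain ⟨fa, ha⟩ := ha
  obtain ⟨fb, hb⟩ := hb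
  obtain ⟨fi, hi⟩ := hi
  rcases ha with ha | ha | ha <;> rcases hb with hb | hb | hb <;> rcases hi with hi | hi | hi <;>
    omega

/-- two vectors on the curves -/
theorem cca {p : ℤ → ℤ} (hP : Pw p) {a b i : Z3} {u v w : ℤ} (ha : Crv p a u) (hb : Crv p b v)
    (hi : Axs i w) (e0 : a 0 + b 0 = i 0) (e1 : a 1 + b 1 = i 1) (e2 : a 2 + b 2 = i 2) : False := by
  have f := hP.add u v
  obtain ⟨fa, ha⟩ := ha
  obtain ⟨fb, hb⟩ := hb
  obtain ⟨fi, hi⟩ := hi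
  rcases ha with ha | ha | ha <;> rcases hb with hb | hb | hb <;> rcases hi with hi | hi | hi <;>
    omega

theorem cac {p : ℤ → ℤ} (hP : Pw p) {a b i : Z3} {u v w : ℤ} (ha : Crv p a u) (hb : Axs b v)
    (hi : Crv p i w) (e0 : a 0 + b 0 = i 0) (e1 : a 1 + b 1 = i 1) (e2 : a 2 + b 2 = i 2) : False := by
  have f := hP.inj u w
  obtain ⟨fa, ha⟩ := ha
  obtain ⟨fb, hb⟩ := hb
  obtain ⟨fi, hi⟩ := hi
  rcases ha with ha | ha | ha <;> rcases hb with hb | hb | hb <;> rcases hi with hi | hi | hi <;>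
    omega

theorem aaa {a b i : Z3} {u v w : ℤ} (ha : Axs a u) (hb : Axs b v) (hi : Axs i w)
    (e0 : a 0 + b 0 = i 0) (e1 : a 1 + b 1 = i 1) (e2 : a 2 + b 2 = i 2) (hn : npar a b) :
    False := by
  obtain ⟨fa, ha⟩ := ha
  obtain ⟨fb, hb⟩ := hb
  obtain ⟨fi, hi⟩ := hi
  unfold npar at hn
  rcases ha with ha | ha | ha <;> rcases hb with hb | hb | hb <;> rcases hi with hi | hi | hi <;>
    first
    | omega
    | (apply hn; rw [ha.1, ha.2.1, ha.2.2, hb.1, hb.2.1, hb.2.2]; simp)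

theorem t_ARI1 : S_ARI1 := by
  intro i a b hi ha hb hab hn
  obtain ⟨⟨i, hi0⟩, si⟩ := i
  obtain ⟨⟨a, ha0⟩, sa⟩ := a
  obtain ⟨⟨b, hb0⟩, sb⟩ := b
  unfold unr at hi ha hb
  simp only at hi ha hb hab hn ⊢
  obtain ⟨e0, e1, e2⟩ := (ext3 _ _).1 hab
  rw [Pi.add_apply] at e0 e1 e2
  obtain ⟨p, hp, hP⟩ : ∃ p : ℤ → ℤ, (∀ x, x ^ 61 = p x) ∧ Pw p := ⟨_, fun _ => rfl, pw61⟩
  cases sa <;> cases sb <;> cases si
  · obtain ⟨u, hu⟩ := crv hp hP ha0 ha
    obtain ⟨v, hv⟩ := crv hp hP hb0 hb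
    obtain ⟨w, hw⟩ := crv hp hP hi0 hi
    exact (ccc hP hu hv hw e0 e1 e2).elim
  · obtain ⟨u, hu⟩ := crv hp hP ha0 ha
    obtain ⟨v, hv⟩ := crv hp hP hb0 hb
    obtain ⟨w, hw⟩ := axs hi0 hi
    exact (cca hP hu hv hw e0 e1 e2).elim
  · obtain ⟨u, hu⟩ := crv hp hP ha0 ha
    obtain ⟨v, hv⟩ := axs hb0 hb
    obtain ⟨w, hw⟩ := crv hp hP hi0 hi
    exact (cac hP hu hv hw e0 e1 e2).elim
  · -- a on a curve
    obtain ⟨u, fu, hu⟩ := crv hp hP ha0 ha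
    obtain ⟨v, fv, hv⟩ := axs hb0 hb
    obtain ⟨w, fw, hw⟩ := axs hi0 hi
    have hu0 : u ≠ 0 := by omega
    rcases hu with hu | hu | hu
    · refine ⟨0, u, hu0, ?_⟩
      rintro w' W' y' rfl rfl rfl
      simp only [ext3, hp, Pi.add_apply, Pi.neg_apply]
      simp
      omega
    · refine ⟨1, u, hu0, ?_⟩
      rintro w' W' y' rfl rfl rfl
      simp only [ext3, hp, Pi.add_apply, Pi.neg_apply]
      simp
      omega
    · refine ⟨2, u, hu0, ?_⟩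
      rintro w' W' y' rfl rfl rfl
      simp only [ext3, hp, Pi.add_apply, Pi.neg_apply]
      simp
      omega
  · obtain ⟨u, hu⟩ := axs ha0 ha
    obtain ⟨v, hv⟩ := crv hp hP hb0 hb
    obtain ⟨w, hw⟩ := crv hp hP hi0 hi
    exact (cac hP hv hu hw (by omega) (by omega) (by omega)).elim
  · -- b on a curve
    obtain ⟨u, fu, hu⟩ := crv hp hP hb0 hb
    obtain ⟨v, fv, hv⟩ := axs ha0 ha
    obtain ⟨w, fw, hw⟩ := axs hi0 hi
    have hu0 : u ≠ 0 := by omega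
    rcases hu with hu | hu | hu
    · refine ⟨0, u, hu0, ?_⟩
      rintro w' W' y' rfl rfl rfl
      simp only [ext3, hp, Pi.add_apply, Pi.neg_apply]
      simp
      omega
    · refine ⟨1, u, hu0, ?_⟩
      rintro w' W' y' rfl rfl rfl
      simp only [ext3, hp, Pi.add_apply, Pi.neg_apply]
      simp
      omega
    · refine ⟨2, u, hu0, ?_⟩
      rintro w' W' y' rfl rfl rfl
      simp only [ext3, hp, Pi.add_apply, Pi.neg_apply]
      simp
      omega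
  · -- i on a curve
    obtain ⟨u, fu, hu⟩ := crv hp hP hi0 hi
    obtain ⟨v, fv, hv⟩ := axs ha0 ha
    obtain ⟨w, fw, hw⟩ := axs hb0 hb
    have hu0 : u ≠ 0 := by omega
    rcases hu with hu | hu | hu
    · refine ⟨0, u, hu0, ?_⟩
      rintro w' W' y' rfl rfl rfl
      simp only [ext3, hp, Pi.add_apply, Pi.neg_apply]
      simp
      omega
    · refine ⟨1, u, hu0, ?_⟩
      rintro w' W' y' rfl rfl rfl
      simp only [ext3, hp, Pi.add_apply, Pi.neg_apply]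
      simp
      omega
    · refine ⟨2, u, hu0, ?_⟩
      rintro w' W' y' rfl rfl rfl
      simp only [ext3, hp, Pi.add_apply, Pi.neg_apply]
      simp
      omega
  · obtain ⟨u, hu⟩ := axs ha0 ha
    obtain ⟨v, hv⟩ := axs hb0 hb
    obtain ⟨w, hw⟩ := axs hi0 hi
    exact (aaa hu hv hw e0 e1 e2 hn).elim

end Pool.Agent.Y932.EP.Ari1
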